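import Pool.Agent.Helper81.GG.LDmain
import Pool.Agent.Helper92.GG.RK

/-! Module LD: linear disjointness over algebraically closed fields. -/

set_option autoImplicit false

namespace Pool.Agent.Helper92.GG

open MvPolynomial
open Pool.Agent.Helper49.Girth

universe u

theorem ld_isAlgClosed {K L : Type*} [Field K] [Field L] [Algebra K L] [IsAlgClosed L]
    (s : Set L) : IsAlgClosed (cl K s) := by
  refine IsAlgClosed.of_exists_root _ fun p hp hirr => ?_
  obtain ⟨x, hx⟩ := IsAlgClosed.exists_root (p.map (algebraMap (cl K s) L)) (by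
    rw [Polynomial.degree_map]
    exact (Polynomial.degree_pos_of_irreducible hirr).ne')
  have hx' : x ∈ cl K s := by
    apply root_mem_cl (p.map (algebraMap (cl K s) L))
    · exact (Polynomial.map_ne_zero_iff (algebraMap (cl K s) L).injective).2 hp.ne_zero
    · intro n
      rw [Polynomial.coeff_map]
      exact (p.coeff n).2
    · exact hx
  refine ⟨⟨x, hx'⟩, ?_⟩
  apply (algebraMap (cl K s) L).injective
  rw [map_zero, ← Polynomial.eval₂_at_apply, ← Polynomial.eval_map]
  exact hx

/-- linear disjointness, algebraic elements -/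
theorem ld_main {k F L : Type*} [Field k] [IsAlgClosed k] [Field F] [Field L] [Algebra k F]
    [Algebra F L] [Algebra k L] [IsScalarTower k F L] {κ : Type} (b : κ → L)
    (hb : AlgebraicIndependent F b) {p : ℕ} (e : Fin p → L)
    (he : ∀ i, e i ∈ cl k (Set.range b))
    (hlin : LinearIndependent k e) : LinearIndependent F e := by
  classical
  have hbk : AlgebraicIndependent k b := hb.restrictScalars (algebraMap k F).injective
  let _ : Algebra (MvPolynomial κ k) L :=
    ((aeval b : MvPolynomial κ k →ₐ[k] L) : MvPolynomial κ k →+* L).toAlgebra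
  have hinj : Function.Injective (algebraMap (MvPolynomial κ k) L) := hbk
  have halg : ∀ i, IsAlgebraic (MvPolynomial κ k) (e i) := by
    intro i
    obtain ⟨q, hq0, hq⟩ := mem_cl'.1 (he i)
    -- transport along the surjection onto the adjoin
    have hs : Function.Surjective (hbk.aevalEquiv) := hbk.aevalEquiv.surjective
    refine ⟨q.map (hbk.aevalEquiv.symm : Algebra.adjoin k (Set.range b) →+* MvPolynomial κ k), ?_, ?_⟩
    · exact (Polynomial.map_ne_zero_iff hbk.aevalEquiv.symm.injective).2 hq0
    · rw [Polynomial.aeval_def, Polynomial.eval₂_map]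
      rw [Polynomial.aeval_def] at hq
      rw [← hq]
      congr 1
      ext a
      obtain ⟨c, rfl⟩ := hs a
      show aeval b (hbk.aevalEquiv.symm (hbk.aevalEquiv c)) = ((hbk.aevalEquiv c : _) : L)
      rw [AlgEquiv.symm_apply_apply]
      exact (hbk.aevalEquiv_apply_coe c).symm
  have hint := fun i => (halg i).exists_integral_multiple
  choose y hy0 hy using hint
  set r : MvPolynomial κ k := ∏ i, y i with hr
  set c : L := algebraMap (MvPolynomial κ k) L r with hc
  have hc0 : c ≠ 0 := by
    rw [hc, Ne, map_eq_zero_iff _ hinj, hr, Finset.prod_eq_zero_iff]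
    push Not
    exact fun i _ => hy0 i
  have hlin' : LinearIndependent k (fun i => c * e i) := by
    have := hlin.map' (LinearMap.mulLeft k c) (by
      rw [LinearMap.ker_eq_bot]
      exact mul_right_injective₀ hc0)
    exact this
  have hres := ld_main_int (k := k) (F := F) b hb (fun i => c * e i) (by
    intro i
    show IsIntegral (MvPolynomial κ k) (c * e i)
    have h1 : c * e i = algebraMap (MvPolynomial κ k) L (∏ j ∈ Finset.univ.erase i, y j) * (y i • e i) := by
      rw [hc, hr, Algebra.smul_def, ← mul_assoc, ← map_mul,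
        Finset.prod_erase_mul _ _ (Finset.mem_univ i)]
    rw [h1]
    exact isIntegral_algebraMap.mul (hy i)) hlin'
  exact LinearIndependent.of_comp (LinearMap.mulLeft F c) hres

theorem ld_indep_of_rk {K L : Type u} [Field K] [Field L] [Algebra K L] {κ : Type} [Finite κ]
    {x : κ → L} (h : Nat.card κ ≤ rk K (Set.range x)) : AlgebraicIndependent K x := by
  obtain ⟨J, h1, -, h3⟩ := exists_basis_family (K := K) x
  have hJ : J = Set.univ := by
    apply Set.eq_of_subset_of_ncard_le (Set.subset_univ J)
    rw [h3, Set.ncard_univ]; exact h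
  subst hJ
  exact h1.comp (fun i : κ => (⟨i, Set.mem_univ i⟩ : (Set.univ : Set κ)))
    (fun a b hab => congrArg Subtype.val hab)

theorem ld_exp {F L ι : Type*} [Field F] [Field L] [Algebra F L] (f : MvPolynomial ι F)
    (z : ι → L) : aeval z f = ∑ m ∈ f.support, f.coeff m • m.prod fun i k => z i ^ k := by
  rw [aeval_def, eval₂_eq]
  refine Finset.sum_congr rfl fun m _ => ?_
  rw [Algebra.smul_def]
  rfl

theorem ld_core {k F L : Type u} [Field k] [IsAlgClosed k] [Field F] [Field L] [Algebra k F]
    [Algebra F L] [Algebra k L] [IsScalarTower k F L] {ι : Type} (y y' : ι → L) {J : Set ι}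
    (hb : AlgebraicIndependent F (fun j : J => y j))
    (hJ : ∀ i, y i ∈ cl k (Set.range fun j : J => y j)) (hspec : Spec k y y') : Spec F y y' := by
  classical
  intro f hf
  -- the space spanned by the monomials
  let W : Submodule k L :=
    Submodule.span k ((f.support.image fun m => m.prod fun i k => y i ^ k : Finset L) : Set L)
  have hWfin : Module.Finite k W := Module.Finite.span_finset _ _
  let v := Module.finBasis k W
  let e : Fin (Module.finrank k W) → L := fun i => (v i : L)
  have hlin : LinearIndependent k e := v.linearIndependent.map' W.subtype (by simp)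
  have hW : W ≤ Subalgebra.toSubmodule (aeval y : MvPolynomial ι k →ₐ[k] L).range := by
    rw [Submodule.span_le]
    intro a ha
    rw [Finset.mem_coe, Finset.mem_image] at ha
    obtain ⟨m, -, rfl⟩ := ha
    refine ⟨monomial m 1, ?_⟩
    show aeval y (monomial m 1) = _
    rw [aeval_monomial, map_one, one_mul]
  have hg : ∀ i, ∃ g : MvPolynomial ι k, aeval y g = e i := fun i => hW (v i).2
  choose g hg using hg
  have he : ∀ i, e i ∈ cl k (Set.range fun j : J => y j) := by
    intro i
    rw [← hg i]
    exact aeval_mem _ y hJ (g i)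
  have hlinF : LinearIndependent F e := ld_main (fun j : J => y j) hb e he hlin
  -- expansion of the monomials
  have hm : ∀ m ∈ f.support, ∃ c : Fin (Module.finrank k W) → k,
      (m.prod fun i k => y i ^ k) = ∑ i, c i • e i := by
    intro m hm
    have hmem : (m.prod fun i k => y i ^ k) ∈ W :=
      Submodule.subset_span (Finset.mem_coe.2 (Finset.mem_image_of_mem _ hm))
    refine ⟨fun i => v.repr ⟨_, hmem⟩ i, ?_⟩
    have h6 : ((∑ i, v.repr ⟨_, hmem⟩ i • v i : W) : L) = m.prod fun i k => y i ^ k :=
      congrArg Subtype.val (v.sum_repr ⟨_, hmem⟩)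
    rw [Submodule.coe_sum] at h6
    exact h6.symm
  choose! c hc using hm
  have hm' : ∀ m ∈ f.support, (m.prod fun i k => y' i ^ k) = ∑ i, c m i • aeval y' (g i) := by
    intro m hm
    have h5 : aeval y (monomial m (1 : k) - ∑ i, C (c m i) * g i) = 0 := by
      rw [map_sub, aeval_monomial, map_one, one_mul, map_sum, hc m hm, sub_eq_zero]
      refine Finset.sum_congr rfl fun i _ => ?_
      rw [map_mul, aeval_C, hg, Algebra.smul_def]
    have h6 := hspec _ h5
    rw [map_sub, aeval_monomial, map_one, one_mul, map_sum, sub_eq_zero] at h6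
    rw [h6]
    refine Finset.sum_congr rfl fun i _ => ?_
    rw [map_mul, aeval_C, Algebra.smul_def]
  -- the coefficients vanish
  have hcoef : ∀ i, ∑ m ∈ f.support, f.coeff m * algebraMap k F (c m i) = 0 := by
    have h7 : ∑ i, (∑ m ∈ f.support, f.coeff m * algebraMap k F (c m i)) • e i = 0 := by
      rw [← hf, ld_exp f y]
      simp_rw [Finset.sum_smul]
      rw [Finset.sum_comm]
      refine Finset.sum_congr rfl fun m hm => ?_
      rw [hc m hm, Finset.smul_sum]
      refine Finset.sum_congr rfl fun i _ => ?_
      rw [mul_smul, algebraMap_smul]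
    exact Fintype.linearIndependent_iff.1 hlinF _ h7
  rw [ld_exp f y']
  calc ∑ m ∈ f.support, f.coeff m • (m.prod fun i k => y' i ^ k)
      = ∑ m ∈ f.support, ∑ i, (f.coeff m * algebraMap k F (c m i)) • aeval y' (g i) := by
        refine Finset.sum_congr rfl fun m hm => ?_
        rw [hm' m hm, Finset.smul_sum]
        refine Finset.sum_congr rfl fun i _ => ?_
        rw [mul_smul, algebraMap_smul]
    _ = ∑ i, (∑ m ∈ f.support, f.coeff m * algebraMap k F (c m i)) • aeval y' (g i) := by
        rw [Finset.sum_comm]
        simp_rw [Finset.sum_smul]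
    _ = 0 := Finset.sum_eq_zero fun i _ => by rw [hcoef i, zero_smul]

theorem ld_tower {K L : Type*} [Field K] [Field L] [Algebra K L] {E F : IntermediateField K L}
    (h : E ≤ F) : @IsScalarTower E F L (IntermediateField.inclusion h).toAlgebra.toSMul _ _ := by
  let _ : Algebra E F := (IntermediateField.inclusion h).toAlgebra
  exact IsScalarTower.of_algebraMap_eq fun _ => rfl

theorem st_LD : ST_LD.{u} := by
  intro K L _ _ _ _ s A hs hA hsA ι _ y y' hrk hspec
  have hle : cl K s ≤ cl K A := cl_mono hsA
  let _ : Algebra (cl K s) (cl K A) := (IntermediateField.inclusion hle).toAlgebra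
  have htow : IsScalarTower (cl K s) (cl K A) L := ld_tower hle
  have hac : IsAlgClosed (cl K s) := ld_isAlgClosed s
  have hy := Set.finite_range y
  have h1 := rk_union_eq (K := K) hA hy
  have h2 := rk_union_eq (K := K) hs hy
  have h3 : rk (cl K A) (Set.range y) = rk (cl K s) (Set.range y) := by omega
  obtain ⟨J, j1, j2, j3⟩ := exists_basis_family (K := cl K s) y
  have hJ : ∀ i, y i ∈ cl (cl K A) (Set.range fun j : J => y j) := by
    intro i
    rw [cl_cl_mem]
    exact cl_mono (Set.union_subset_union_left _ hsA) (cl_cl_mem.1 (j2 i))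
  have hb : AlgebraicIndependent (cl K A) (fun j : J => y j) := by
    apply ld_indep_of_rk
    rw [Nat.card_coe_set_eq, j3, ← h3]
    apply rk_le_of_subset_cl (Set.finite_range _)
    rintro _ ⟨i, rfl⟩
    exact hJ i
  exact ld_core y y' hb j2 hspec

end Pool.Agent.Helper92.GG
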