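import Pool.Agent.Helper92.GG.Stmts

/-! Linear disjointness over an algebraically closed field (auxiliary file for LD). -/

set_option autoImplicit false

namespace Pool.Agent.Helper92.GG

open MvPolynomial

universe u v

/-- a nonzero element of a finitely generated domain does not vanish at some point -/
theorem ld_point {k B : Type*} [Field k] [IsAlgClosed k] [CommRing B] [IsDomain B] [Algebra k B]
    [Algebra.FiniteType k B] (a : B) (ha : a ≠ 0) : ∃ β : B →ₐ[k] k, β a ≠ 0 := by
  have hJ : IsJacobsonRing B := isJacobsonRing_of_finiteType (A := k)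
  have h1 : (⊥ : Ideal B).jacobson = ⊥ := hJ.out (Ideal.isPrime_bot).isRadical
  have h2 : a ∉ (⊥ : Ideal B).jacobson := by rw [h1]; exact ha
  rw [Ideal.jacobson, Submodule.mem_sInf] at h2
  push Not at h2
  obtain ⟨M, ⟨-, hM⟩, haM⟩ := h2
  let _ : Field (B ⧸ M) := Ideal.Quotient.field M
  have hfin : Module.Finite k (B ⧸ M) := finite_of_finite_type_of_isJacobsonRing k (B ⧸ M)
  have hint : Algebra.IsIntegral k (B ⧸ M) := inferInstance
  have hbij := IsAlgClosed.algebraMap_bijective_of_isIntegral (k := k) (K := B ⧸ M)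
  let E : k ≃ₐ[k] (B ⧸ M) := AlgEquiv.ofBijective (Algebra.ofId k (B ⧸ M)) hbij
  refine ⟨(E.symm : (B ⧸ M) →ₐ[k] k).comp (Ideal.Quotient.mkₐ k M), fun h => haM ?_⟩
  rw [AlgHom.comp_apply] at h
  have h3 : Ideal.Quotient.mkₐ k M a = 0 := by
    have := congrArg E h
    simpa using this
  exact Ideal.Quotient.eq_zero_iff_mem.1 h3

theorem ld_dvd {A L : Type*} [CommRing A] [IsDomain A] [Field L] [Algebra A L] (x : L)
    (hx : IsIntegral A x) (h0 : x ≠ 0) :
    ∃ c : A, c ≠ 0 ∧ ∃ z : L, IsIntegral A z ∧ algebraMap A L c = x * z := by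
  let T := integralClosure A L
  let x' : T := ⟨x, hx⟩
  have hx' : x' ∈ nonZeroDivisors T := by
    apply mem_nonZeroDivisors_of_ne_zero
    intro h
    exact h0 (congrArg Subtype.val h)
  have halg : IsAlgebraic A x' := (Algebra.IsIntegral.isIntegral (R := A) x').isAlgebraic
  obtain ⟨c, hc, z, hz⟩ := halg.exists_nonzero_dvd hx'
  exact ⟨c, hc, z.1, z.2, congrArg Subtype.val hz⟩

/-- specialization of a relation between integral elements -/
theorem ld_spec {R A L : Type*} [CommRing R] [IsDomain R] [CommRing A] [IsDomain A] [Field L]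
    [Algebra R L] [Algebra A L] (hinj : Function.Injective (algebraMap R L)) (ι : A →+* R)
    (γ : R →+* A) (hγ : ∀ a, γ (ι a) = a) (hι : ∀ a, algebraMap R L (ι a) = algebraMap A L a)
    {p : ℕ} (e : Fin p → L) (he : ∀ i, IsIntegral A (e i)) (ψ : Fin p → R)
    (hrel : ∑ i, algebraMap R L (ψ i) * e i = 0) :
    ∑ i, algebraMap A L (γ (ψ i)) * e i = 0 := by
  by_contra hx0
  set x : L := ∑ i, algebraMap A L (γ (ψ i)) * e i with hx
  have hint : ∀ z : L, IsIntegral A z → IsIntegral R z := by
    rintro z ⟨q, hq1, hq2⟩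
    refine ⟨q.map ι, hq1.map _, ?_⟩
    rw [Polynomial.eval₂_map]
    have : (algebraMap R L).comp ι = algebraMap A L := RingHom.ext hι
    rw [this]; exact hq2
  let S := integralClosure R L
  have hP : (RingHom.ker γ).IsPrime := RingHom.ker_isPrime _
  have hker : RingHom.ker (algebraMap R S) ≤ RingHom.ker γ := by
    intro a ha
    have h1 : algebraMap R L a = 0 := congrArg Subtype.val (RingHom.mem_ker.1 ha)
    have h2 : a = 0 := hinj (by rw [h1, map_zero])
    rw [h2]; exact Ideal.zero_mem _
  obtain ⟨Q, hQ, hQP⟩ :=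
    Ideal.exists_ideal_over_prime_of_isIntegral_of_isDomain (S := S) (RingHom.ker γ) hker
  let e' : Fin p → S := fun i => ⟨e i, hint _ (he i)⟩
  have hxint : IsIntegral A x := by
    rw [hx]
    exact IsIntegral.sum _ fun i _ => IsIntegral.mul isIntegral_algebraMap (he i)
  obtain ⟨c, hc0, z, hz, hxz⟩ := ld_dvd x hxint hx0
  let z' : S := ⟨z, hint z hz⟩
  let x' : S := ∑ i, algebraMap R S (ι (γ (ψ i))) * e' i
  have hx'v : (x' : L) = x := by
    show (((∑ i, algebraMap R S (ι (γ (ψ i))) * e' i : S)) : L) = x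
    rw [AddSubmonoidClass.coe_finsetSum, hx]
    refine Finset.sum_congr rfl fun i _ => ?_
    show algebraMap R L (ι (γ (ψ i))) * e i = _
    rw [hι]
  have hrel' : ∑ i, algebraMap R S (ψ i) * e' i = 0 := by
    apply Subtype.ext
    rw [AddSubmonoidClass.coe_finsetSum]
    exact hrel
  have hx'Q : x' ∈ Q := by
    have h1 : x' = ∑ i, algebraMap R S (ι (γ (ψ i)) - ψ i) * e' i := by
      have h2 : ∑ i, algebraMap R S (ι (γ (ψ i)) - ψ i) * e' i =
          x' - ∑ i, algebraMap R S (ψ i) * e' i := by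
        show _ = ∑ i, algebraMap R S (ι (γ (ψ i))) * e' i - _
        rw [← Finset.sum_sub_distrib]
        refine Finset.sum_congr rfl fun i _ => ?_
        rw [map_sub, sub_mul]
      rw [h2, hrel', sub_zero]
    rw [h1]
    refine Ideal.sum_mem _ fun i _ => Ideal.mul_mem_right _ _ ?_
    have h3 : ι (γ (ψ i)) - ψ i ∈ RingHom.ker γ := by
      rw [RingHom.mem_ker, map_sub, hγ, sub_self]
    rw [← hQP] at h3
    exact h3
  have hcQ : algebraMap R S (ι c) ∈ Q := by
    have h1 : algebraMap R S (ι c) = x' * z' := by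
      apply Subtype.ext
      show algebraMap R L (ι c) = (x' : L) * z
      rw [hι, hx'v]
      exact hxz
    rw [h1]
    exact Ideal.mul_mem_right _ _ hx'Q
  have hcP : ι c ∈ RingHom.ker γ := by
    rw [← hQP]; exact hcQ
  rw [RingHom.mem_ker, hγ] at hcP
  exact hc0 hcP

/-- linear disjointness, integral elements -/
theorem ld_main_int {k F L : Type*} [Field k] [IsAlgClosed k] [Field F] [Field L] [Algebra k F]
    [Algebra F L] [Algebra k L] [IsScalarTower k F L] {κ : Type} (b : κ → L)
    (hb : AlgebraicIndependent F b) {p : ℕ} (e : Fin p → L)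
    (he : ∀ i, ((aeval b : MvPolynomial κ k →ₐ[k] L) : MvPolynomial κ k →+* L).IsIntegralElem (e i))
    (hlin : LinearIndependent k e) : LinearIndependent F e := by
  classical
  by_contra hcon
  rw [Fintype.not_linearIndependent_iff] at hcon
  obtain ⟨ψ, hψ, i₀, hi₀⟩ := hcon
  let B₀ : Subalgebra k F := Algebra.adjoin k (Set.range ψ)
  have hBfin : Algebra.FiniteType k B₀ := by
    apply (Subalgebra.fg_iff_finiteType B₀).1
    have h := Subalgebra.fg_adjoin_finset (R := k) (Finset.univ.image ψ)
    rwa [Finset.coe_image, Finset.coe_univ, Set.image_univ] at h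
  let ψ' : Fin p → B₀ := fun i => ⟨ψ i, Algebra.subset_adjoin ⟨i, rfl⟩⟩
  have hψ0 : ψ' i₀ ≠ 0 := fun h => hi₀ (congrArg Subtype.val h)
  obtain ⟨β, hβ⟩ := ld_point (k := k) (ψ' i₀) hψ0
  let _ : Algebra (MvPolynomial κ B₀) L :=
    ((aeval b : MvPolynomial κ B₀ →ₐ[B₀] L) : MvPolynomial κ B₀ →+* L).toAlgebra
  let _ : Algebra (MvPolynomial κ k) L :=
    ((aeval b : MvPolynomial κ k →ₐ[k] L) : MvPolynomial κ k →+* L).toAlgebra
  have hinj : Function.Injective (algebraMap (MvPolynomial κ B₀) L) := by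
    have h1 : AlgebraicIndependent B₀ b := hb.restrictScalars Subtype.val_injective
    exact h1
  have key := ld_spec (R := MvPolynomial κ B₀) (A := MvPolynomial κ k) (L := L) hinj
    (MvPolynomial.map (algebraMap k B₀)) (MvPolynomial.map (β : B₀ →+* k))
    (by
      intro a
      rw [MvPolynomial.map_map]
      have h5 : (β : B₀ →+* k).comp (algebraMap k B₀) = RingHom.id k := by
        ext a
        show β (algebraMap k B₀ a) = a
        rw [AlgHom.commutes]; rfl
      rw [h5, MvPolynomial.map_id])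
    (by
      intro a
      show aeval b (MvPolynomial.map (algebraMap k B₀) a) = aeval b a
      rw [MvPolynomial.aeval_map_algebraMap]) e he (fun i => C (ψ' i))
    (by
      rw [← hψ]
      refine Finset.sum_congr rfl fun i _ => ?_
      rw [Algebra.smul_def]
      congr 1
      show aeval b (C (ψ' i)) = _
      rw [MvPolynomial.aeval_C]
      rfl)
  have key2 : ∑ i, β (ψ' i) • e i = 0 := by
    rw [← key]
    refine Finset.sum_congr rfl fun i _ => ?_
    rw [Algebra.smul_def]
    congr 1
    show _ = aeval b (MvPolynomial.map (β : B₀ →+* k) (C (ψ' i)))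
    rw [MvPolynomial.map_C, MvPolynomial.aeval_C]
    rfl
  exact hβ (Fintype.linearIndependent_iff.1 hlin (fun i => β (ψ' i)) key2 i₀)

end Pool.Agent.Helper92.GG
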