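import Pool.Agent.Helper92.GG.Stmts

/-! Module LOC: the local ring of a curve at a smooth point. -/

set_option autoImplicit false

namespace Pool.Agent.Helper92.GG

open MvPolynomial

universe u

/-- first order expansion at a point -/
theorem loc_taylor {σ F : Type*} [Fintype σ] [Field F] (x₀ : σ → F) (h : MvPolynomial σ F) :
    ∃ q : σ → MvPolynomial σ F, h - C (eval x₀ h) = ∑ c, (X c - C (x₀ c)) * q c := by
  classical
  induction h using MvPolynomial.induction_on with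
  | C a => exact ⟨0, by simp⟩
  | add p q hp hq =>
    obtain ⟨a, ha⟩ := hp
    obtain ⟨b, hb⟩ := hq
    refine ⟨fun c => a c + b c, ?_⟩
    have h1 : p + q - C (eval x₀ (p + q)) = (p - C (eval x₀ p)) + (q - C (eval x₀ q)) := by
      rw [map_add, C_add]; ring
    rw [h1, ha, hb, ← Finset.sum_add_distrib]
    refine Finset.sum_congr rfl fun c _ => ?_
    ring
  | mul_X p i hp =>
    obtain ⟨a, ha⟩ := hp
    refine ⟨fun c => a c * X i + if c = i then C (eval x₀ p) else 0, ?_⟩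
    have h1 : p * X i - C (eval x₀ (p * X i)) =
        (p - C (eval x₀ p)) * X i + (X i - C (x₀ i)) * C (eval x₀ p) := by
      rw [map_mul, eval_X, C_mul]; ring
    rw [h1, ha, Finset.sum_mul]
    simp_rw [mul_add, Finset.sum_add_distrib]
    congr 1
    · refine Finset.sum_congr rfl fun c _ => ?_
      ring
    · simp

theorem loc_taylor2 {F : Type*} [Field F] (t₀ s₀ : F) (f : MvPolynomial (Fin 2) F)
    (hf : eval ![t₀, s₀] f = 0) : ∃ a b : MvPolynomial (Fin 2) F,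
      f = (X 0 - C t₀) * a + (X 1 - C s₀) * b ∧ eval ![t₀, s₀] b = eval ![t₀, s₀] (pderiv 1 f) := by
  obtain ⟨q, hq⟩ := loc_taylor ![t₀, s₀] f
  rw [hf, C_0, sub_zero, Fin.sum_univ_two] at hq
  simp only [Matrix.cons_val_zero, Matrix.cons_val_one] at hq
  refine ⟨q 0, q 1, hq, ?_⟩
  have h0 : pderiv (1 : Fin 2) (X 0 : MvPolynomial (Fin 2) F) = 0 := pderiv_X_of_ne (by decide)
  rw [hq]
  simp [h0, Derivation.leibniz]

theorem loc_key {A F : Type*} [CommRing A] [IsDomain A] [IsNoetherianRing A] [Field F]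
    (ε : A →+* F) (hε : Function.Surjective ε) (τ s : A) (hτ : ε τ = 0) (hs : ε s ≠ 0)
    (hP : ∀ a, ε a = 0 → ∃ a', s * a = τ * a') (a : A) (ha : a ≠ 0) :
    ∃ (B : ℕ) (f g : A), ε f ≠ 0 ∧ ε g ≠ 0 ∧ a * g = τ ^ B * f := by
  by_contra hcon
  push Not at hcon
  have h1 : ∀ n : ℕ, ∃ b, s ^ n * a = τ ^ n * b := by
    intro n
    induction n with
    | zero => exact ⟨a, by simp⟩
    | succ n ih =>
      obtain ⟨b, hb⟩ := ih
      have hb0 : ε b = 0 := by
        by_contra hne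
        exact hcon n b (s ^ n) hne (by rw [map_pow]; exact pow_ne_zero _ hs) (by rw [← hb]; ring)
      obtain ⟨b', hb'⟩ := hP b hb0
      refine ⟨b', ?_⟩
      calc s ^ (n + 1) * a = s * (s ^ n * a) := by ring
        _ = τ ^ n * (s * b) := by rw [hb]; ring
        _ = τ ^ (n + 1) * b' := by rw [hb']; ring
  have hM : (RingHom.ker ε).IsMaximal := RingHom.ker_isMaximal_of_surjective ε hε
  have hmem : ∀ n : ℕ, a ∈ (RingHom.ker ε) ^ n := by
    intro n
    have hcop : IsCoprime (Ideal.span {s}) (RingHom.ker ε) := by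
      rw [Ideal.isCoprime_iff_sup_eq]
      have hns : s ∉ RingHom.ker ε := fun h => hs ((RingHom.mem_ker).1 h)
      refine hM.out.2 _ (lt_of_le_of_ne le_sup_right fun h => hns ?_)
      rw [h]
      exact Ideal.mem_sup_left (Ideal.mem_span_singleton_self s)
    have hcop2 := hcop.pow (m := n) (n := n)
    rw [Ideal.span_singleton_pow, Ideal.isCoprime_iff_exists] at hcop2
    obtain ⟨i, hi, j, hj, hij⟩ := hcop2
    obtain ⟨r, rfl⟩ := Ideal.mem_span_singleton'.1 hi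
    obtain ⟨b, hb⟩ := h1 n
    have h2 : a = r * (τ ^ n * b) + j * a := by
      calc a = (r * s ^ n + j) * a := by rw [hij, one_mul]
        _ = r * (s ^ n * a) + j * a := by ring
        _ = _ := by rw [hb]
    rw [h2]
    refine Ideal.add_mem _ (Ideal.mul_mem_left _ _ (Ideal.mul_mem_right _ _ ?_))
      (Ideal.mul_mem_right _ _ hj)
    exact Ideal.pow_mem_pow ((RingHom.mem_ker).2 hτ) n
  have h3 := Ideal.iInf_pow_eq_bot_of_isDomain (RingHom.ker ε) hM.ne_top
  have h4 : a ∈ ⨅ i : ℕ, (RingHom.ker ε) ^ i := by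
    rw [Ideal.mem_iInf]; exact hmem
  rw [h3] at h4
  exact ha h4

theorem st_LOC : ST_LOC.{u} := by
  classical
  intro F L _ _ _ n ξ ξ₀ t hspec hτ hsep z hz hz0
  let φ : MvPolynomial (Fin n) F →+* L := (aeval ξ : MvPolynomial (Fin n) F →ₐ[F] L)
  let A := MvPolynomial (Fin n) F ⧸ RingHom.ker φ
  have hprime : (RingHom.ker φ).IsPrime := RingHom.ker_isPrime φ
  have hdom : IsDomain A := Ideal.Quotient.isDomain _
  let mk : MvPolynomial (Fin n) F →+* A := Ideal.Quotient.mk (RingHom.ker φ)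
  have hmk : Function.Surjective mk := Ideal.Quotient.mk_surjective
  let ε : A →+* F := Ideal.Quotient.lift (RingHom.ker φ) (eval ξ₀) (fun f hf => hspec f hf)
  have hεmk : ∀ f, ε (mk f) = eval ξ₀ f := fun f => rfl
  let ψ : A →+* L := RingHom.kerLift φ
  have hψinj : Function.Injective ψ := RingHom.kerLift_injective φ
  have hψmk : ∀ f, ψ (mk f) = aeval ξ f := fun f => rfl
  have hε : Function.Surjective ε := fun a => ⟨mk (C a), by rw [hεmk, eval_C]⟩
  let τ : A := mk (X t - C (ξ₀ t))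
  -- the multipliers
  have hmult : ∀ c : Fin n, ∃ s : A, ε s ≠ 0 ∧ ∃ a, s * mk (X c - C (ξ₀ c)) = τ * a := by
    intro c
    obtain ⟨f, hf, hf'⟩ := hsep c
    have e1 : (ξ ∘ ![t, c]) = ![ξ t, ξ c] := by
      funext i; fin_cases i <;> rfl
    have e2 : (ξ₀ ∘ ![t, c]) = ![ξ₀ t, ξ₀ c] := by
      funext i; fin_cases i <;> rfl
    have h1 : aeval ξ (rename ![t, c] f) = 0 := by rw [aeval_rename, e1]; exact hf
    have h2 : aeval ![ξ₀ t, ξ₀ c] f = 0 := by
      have := hspec _ h1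
      rw [aeval_rename, e2] at this
      exact this
    obtain ⟨a, b, hab, hb⟩ := loc_taylor2 (ξ₀ t) (ξ₀ c) f h2
    refine ⟨mk (rename ![t, c] b), ?_, -mk (rename ![t, c] a), ?_⟩
    · rw [hεmk, eval_rename, e2, hb]
      exact hf'
    · have h3 : mk (rename ![t, c] f) = 0 := Ideal.Quotient.eq_zero_iff_mem.2 h1
      rw [hab] at h3
      simp only [map_add, map_mul, map_sub, rename_X, rename_C, Matrix.cons_val_zero,
        Matrix.cons_val_one] at h3
      show mk (rename ![t, c] b) * mk (X c - C (ξ₀ c)) = mk (X t - C (ξ₀ t)) * -mk (rename ![t, c] a)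
      rw [map_sub, map_sub]
      linear_combination h3
  choose s hs a ha using hmult
  have hP : ∀ b, ε b = 0 → ∃ b', (∏ c, s c) * b = τ * b' := by
    intro b hb
    obtain ⟨h, rfl⟩ := hmk b
    rw [hεmk] at hb
    obtain ⟨q, hq⟩ := loc_taylor ξ₀ h
    rw [hb, C_0, sub_zero] at hq
    refine ⟨∑ c, (∏ c' ∈ Finset.univ.erase c, s c') * a c * mk (q c), ?_⟩
    nth_rewrite 1 [hq]
    rw [map_sum, Finset.mul_sum, Finset.mul_sum]
    refine Finset.sum_congr rfl fun c _ => ?_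
    rw [map_mul, ← Finset.prod_erase_mul _ _ (Finset.mem_univ c)]
    linear_combination (∏ c' ∈ Finset.univ.erase c, s c') * mk (q c) * ha c
  have hs' : ε (∏ c, s c) ≠ 0 := by
    rw [map_prod, Finset.prod_ne_zero_iff]
    exact fun c _ => hs c
  have hτ0 : ε τ = 0 := by
    show ε (mk (X t - C (ξ₀ t))) = 0
    rw [hεmk]; simp
  have key : ∀ r : MvPolynomial (Fin n) F, aeval ξ r ≠ 0 →
      ∃ (B : ℕ) (f g : MvPolynomial (Fin n) F), aeval ξ₀ f ≠ 0 ∧ aeval ξ₀ g ≠ 0 ∧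
        aeval ξ r * aeval ξ g = (ξ t - algebraMap F L (ξ₀ t)) ^ B * aeval ξ f := by
    intro r hr
    have hr' : mk r ≠ 0 := by
      intro h
      apply hr
      rw [← hψmk, h, map_zero]
    obtain ⟨B, f, g, hf, hg, hfg⟩ := loc_key ε hε τ _ hτ0 hs' hP (mk r) hr'
    obtain ⟨f, rfl⟩ := hmk f
    obtain ⟨g, rfl⟩ := hmk g
    refine ⟨B, f, g, hf, hg, ?_⟩
    have h1 := congrArg ψ hfg
    rw [map_mul, map_mul, map_pow, hψmk, hψmk, hψmk] at h1
    have h2 : aeval ξ (X t - C (ξ₀ t)) = ξ t - algebraMap F L (ξ₀ t) := by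
      rw [map_sub, aeval_X, aeval_C]
    rw [h1, h2, hψmk]
  rw [IntermediateField.mem_adjoin_range_iff] at hz
  obtain ⟨r, d, rfl⟩ := hz
  have hr : aeval ξ r ≠ 0 := fun h => hz0 (by rw [h, zero_div])
  have hd : aeval ξ d ≠ 0 := fun h => hz0 (by rw [h, div_zero])
  obtain ⟨B₁, f₁, g₁, hf₁, hg₁, h₁⟩ := key r hr
  obtain ⟨B₂, f₂, g₂, hf₂, hg₂, h₂⟩ := key d hd
  have hnz : ∀ f : MvPolynomial (Fin n) F, aeval ξ₀ f ≠ 0 → aeval ξ f ≠ 0 :=
    fun f hf h => hf (hspec f h)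
  refine ⟨(B₁ : ℤ) - B₂, f₁ * g₂, g₁ * f₂, ?_, ?_, ?_⟩
  · rw [map_mul]; exact mul_ne_zero hf₁ hg₂
  · rw [map_mul]; exact mul_ne_zero hg₁ hf₂
  · have hτ' : ξ t - algebraMap F L (ξ₀ t) ≠ 0 := sub_ne_zero.2 hτ
    rw [map_mul, map_mul, zpow_sub₀ hτ', zpow_natCast, zpow_natCast]
    have hg₁' := hnz _ hg₁
    have hg₂' := hnz _ hg₂
    have hf₂' := hnz _ hf₂
    field_simp
    linear_combination (aeval ξ f₂ * (ξ t - algebraMap F L (ξ₀ t)) ^ B₂) * h₁ -
      (aeval ξ f₁ * (ξ t - algebraMap F L (ξ₀ t)) ^ B₁) * h₂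

end Pool.Agent.Helper92.GG
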