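import Pool.Agent.Helper92.GG.Stmts

/-! Module PI: purely inseparable elements. -/

set_option autoImplicit false

namespace Pool.Agent.Helper92.GG

open MvPolynomial

universe u

theorem pi_ext {E L M : Type*} [Field E] [Field L] [Field M] [IsAlgClosed M] [Algebra E L]
    [Algebra E M] {ι : Type*} (x : ι → L) (hx : IsTranscendenceBasis E x) (y : ι → M)
    (hy : AlgebraicIndependent E y) : ∃ σ : L →+* M, ∀ a : E, σ (algebraMap E L a) = algebraMap E M a := by
  let _ : Algebra (MvPolynomial ι E) L :=
    ((aeval x : MvPolynomial ι E →ₐ[E] L) : MvPolynomial ι E →+* L).toAlgebra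
  let _ : Algebra (MvPolynomial ι E) M :=
    ((aeval y : MvPolynomial ι E →ₐ[E] M) : MvPolynomial ι E →+* M).toAlgebra
  have hinjM : Function.Injective (algebraMap (MvPolynomial ι E) M) := hy
  have hf : FaithfulSMul (MvPolynomial ι E) M := (faithfulSMul_iff_algebraMap_injective _ _).2 hinjM
  have hinjL : Function.Injective (algebraMap (MvPolynomial ι E) L) := hx.1
  have hf' : FaithfulSMul (MvPolynomial ι E) L := (faithfulSMul_iff_algebraMap_injective _ _).2 hinjL
  have halg : Algebra.IsAlgebraic (MvPolynomial ι E) L := by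
    have h1 := hx.isAlgebraic
    refine ⟨fun a => ?_⟩
    obtain ⟨q, hq0, hq⟩ := h1.isAlgebraic a
    refine ⟨q.map (hx.1.aevalEquiv.symm : Algebra.adjoin E (Set.range x) →+* MvPolynomial ι E),
      (Polynomial.map_ne_zero_iff hx.1.aevalEquiv.symm.injective).2 hq0, ?_⟩
    rw [Polynomial.aeval_def, Polynomial.eval₂_map]
    rw [Polynomial.aeval_def] at hq
    rw [← hq]
    congr 1
    ext b
    obtain ⟨c, rfl⟩ := hx.1.aevalEquiv.surjective b
    show aeval x (hx.1.aevalEquiv.symm (hx.1.aevalEquiv c)) = ((hx.1.aevalEquiv c : _) : L)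
    rw [AlgEquiv.symm_apply_apply]
    exact (hx.1.aevalEquiv_apply_coe c).symm
  let σ : L →ₐ[MvPolynomial ι E] M := IsAlgClosed.lift
  refine ⟨σ, fun a => ?_⟩
  have h1 : algebraMap E L a = algebraMap (MvPolynomial ι E) L (C a) := by
    show _ = aeval x (C a)
    rw [aeval_C]
  have h2 : algebraMap E M a = algebraMap (MvPolynomial ι E) M (C a) := by
    show _ = aeval y (C a)
    rw [aeval_C]
  rw [h1, h2]
  exact σ.commutes (C a)

/-- embeddings of algebraic subextensions extend to algebraically closed fields -/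
theorem pi_extend {F E L : Type*} [Field F] [Field E] [Field L] [Algebra F E] [Algebra F L]
    [Algebra E L] [IsScalarTower F E L] [IsAlgClosed L] [Algebra.IsAlgebraic F E]
    (h : E →ₐ[F] L) : ∃ σ : L →ₐ[F] L, ∀ a : E, σ (algebraMap E L a) = h a := by
  obtain ⟨ι, x, hx⟩ := exists_isTranscendenceBasis' F L
  have hx' : IsTranscendenceBasis E x := (Algebra.IsAlgebraic.isTranscendenceBasis_iff F E).1 hx
  have hy : @AlgebraicIndependent _ E L x _ _ h.toRingHom.toAlgebra := by
    let _ : Algebra E L := h.toRingHom.toAlgebra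
    have : IsScalarTower F E L := IsScalarTower.of_algebraMap_eq fun a => (h.commutes a).symm
    exact hx.1.extendScalars E
  obtain ⟨σ, hσ⟩ := @pi_ext E L L _ _ _ _ _ h.toRingHom.toAlgebra _ x hx' x hy
  refine ⟨{ σ with commutes' := fun a => ?_ }, fun a => hσ a⟩
  show σ (algebraMap F L a) = algebraMap F L a
  rw [IsScalarTower.algebraMap_apply F E L, hσ]
  exact (h.commutes a).trans (IsScalarTower.algebraMap_apply F E L a)

theorem st_PI : ST_PI.{u} := by
  intro F L _ _ _ _ z hz hfix
  let E := IntermediateField.adjoin F {z}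
  have hint : IsIntegral F z := hz.isIntegral
  have halg : Algebra.IsAlgebraic F E := IntermediateField.isAlgebraic_adjoin_simple hint
  let zE : E := ⟨z, IntermediateField.mem_adjoin_simple_self F z⟩
  have hh : ∀ h : E →ₐ[F] L, h zE = z := by
    intro h
    obtain ⟨σ, hσ⟩ := pi_extend h
    rw [← hσ zE]
    exact hfix σ
  have hpi : IsPurelyInseparable F E := by
    rw [isPurelyInseparable_iff_finSepDegree_eq_one, Field.finSepDegree, Nat.card_eq_one_iff_unique]
    let j : AlgebraicClosure E →ₐ[E] L := IsAlgClosed.lift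
    refine ⟨⟨fun f g => ?_⟩, inferInstance⟩
    apply AlgHom.ext
    have h1 : ∀ f : Field.Emb F E, ((j.restrictScalars F).comp f) zE = z := fun f => hh _
    have h2 : f zE = g zE := by
      have := (h1 f).trans (h1 g).symm
      exact j.injective this
    have h3 : f = g := (IntermediateField.adjoin.powerBasis hint).algHom_ext h2
    intro x; rw [h3]
  obtain ⟨N, c, hc⟩ := IsPurelyInseparable.pow_mem F (ringExpChar F) zE
  exact ⟨N, c, by
    have := congrArg Subtype.val hc
    exact this⟩

end Pool.Agent.Helper92.GG
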